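import Pool.Agent.N889.AO.Stm

/-!
# Project AO (helper889), task POW (helper519)
-/

set_option autoImplicit false
open Polynomial Matrix

namespace Pool.Agent.N519.AO

open Pool.Agent.N889.AO

variable {ι : Type} [Fintype ι] [DecidableEq ι]

/-- the components of the elements of a characteristic subspace -/
lemma single_mem (c : ι → ι → ι → ℤ) (w : ι → ℚ) (hw : Function.Injective w)
    (hD : IsDer c ℚ (Matrix.diagonal w)) (U : Submodule ℚ (ι → ℚ)) (hU : CharSub c U)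
    (x : ι → ℚ) (hx : x ∈ U) (i : ι) : Pi.single i (x i) ∈ U := by
  have h1 : ∀ s : Finset ι, (fun k => (∏ j ∈ s, (w k - w j)) * x k) ∈ U := by
    intro s
    induction s using Finset.induction_on with
    | empty => simpa using hx
    | insert a s ha ih =>
      have h2 := hU _ hD _ ih
      have h3 := U.sub_mem h2 (U.smul_mem (w a) ih)
      convert h3 using 1
      funext k
      rw [Pi.sub_apply, Pi.smul_apply, smul_eq_mul, Matrix.mulVec_diagonal,
        Finset.prod_insert ha]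
      ring
  have h2 := U.smul_mem (∏ j ∈ Finset.univ.erase i, (w i - w j))⁻¹ (h1 (Finset.univ.erase i))
  convert h2 using 1
  funext k
  rw [Pi.smul_apply, smul_eq_mul]
  by_cases hk : k = i
  · subst hk
    rw [Pi.single_eq_same, ← mul_assoc, inv_mul_cancel₀, one_mul]
    rw [Finset.prod_ne_zero_iff]
    intro j hj
    exact sub_ne_zero.2 (fun h => (Finset.ne_of_mem_erase hj) (hw h).symm)
  · have h3 : ∏ j ∈ Finset.univ.erase i, (w k - w j) = 0 :=
      Finset.prod_eq_zero (Finset.mem_erase.2 ⟨hk, Finset.mem_univ k⟩) (sub_self _)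
    rw [Pi.single_eq_of_ne hk, h3, zero_mul, mul_zero]

lemma le_of_singles (c : ι → ι → ι → ℤ) (w : ι → ℚ) (hw : Function.Injective w)
    (hD : IsDer c ℚ (Matrix.diagonal w)) (U U' : Submodule ℚ (ι → ℚ)) (hU : CharSub c U)
    (h : ∀ i, Pi.single i (1 : ℚ) ∈ U → Pi.single i (1 : ℚ) ∈ U') : U ≤ U' := by
  intro x hx
  have h1 : x = ∑ i, Pi.single i (x i) := (Finset.univ_sum_single x).symm
  rw [h1]
  refine U'.sum_mem fun i _ => ?_
  by_cases hi : x i = 0
  · rw [hi, Pi.single_zero]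
    exact U'.zero_mem
  · have h2 := single_mem c w hw hD U hU x hx i
    have h3 : (Pi.single i (1 : ℚ) : ι → ℚ) ∈ U := by
      have h4 := U.smul_mem (x i)⁻¹ h2
      rwa [← Pi.single_smul, smul_eq_mul, inv_mul_cancel₀ hi] at h4
    have h4 := U'.smul_mem (x i) (h i h3)
    rwa [← Pi.single_smul, smul_eq_mul, mul_one] at h4

/-- the type of the characteristic subspaces is finite -/
lemma fin_char (c : ι → ι → ι → ℤ) (w : ι → ℚ) (hw : Function.Injective w)
    (hD : IsDer c ℚ (Matrix.diagonal w)) :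
    Finite {U : Submodule ℚ (ι → ℚ) // CharSub c U} := by
  refine Finite.of_injective
    (fun U : {U : Submodule ℚ (ι → ℚ) // CharSub c U} => {i : ι | Pi.single i (1 : ℚ) ∈ U.1}) ?_
  intro U U' h
  have h1 : ∀ i, Pi.single i (1 : ℚ) ∈ U.1 ↔ Pi.single i (1 : ℚ) ∈ U'.1 := fun i =>
    Set.ext_iff.1 h i
  exact Subtype.ext (le_antisymm
    (le_of_singles c w hw hD _ _ U.2 fun i => (h1 i).1)
    (le_of_singles c w hw hD _ _ U'.2 fun i => (h1 i).2))

/-- conjugation of derivations -/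
lemma conj_der (c : ι → ι → ι → ℤ) (F : Matrix ι ι ℚ) (hF : IsMor c c ℚ F) (hu : IsUnit F.det)
    (D : Matrix ι ι ℚ) (hD : IsDer c ℚ D) : IsDer c ℚ (F⁻¹ * D * F) := by
  have hinv : ∀ x y : ι → ℚ, F⁻¹ *ᵥ mulc c ℚ x y = mulc c ℚ (F⁻¹ *ᵥ x) (F⁻¹ *ᵥ y) := by
    intro x y
    have h1 := hF (F⁻¹ *ᵥ x) (F⁻¹ *ᵥ y)
    rw [Matrix.mulVec_mulVec, Matrix.mulVec_mulVec, Matrix.mul_nonsing_inv F hu,
      Matrix.one_mulVec, Matrix.one_mulVec] at h1
    rw [← h1, Matrix.mulVec_mulVec, Matrix.nonsing_inv_mul F hu, Matrix.one_mulVec]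
  have hid : ∀ x : ι → ℚ, F⁻¹ *ᵥ (F *ᵥ x) = x := by
    intro x
    rw [Matrix.mulVec_mulVec, Matrix.nonsing_inv_mul F hu, Matrix.one_mulVec]
  intro x y
  have hc : ∀ z : ι → ℚ, (F⁻¹ * D * F) *ᵥ z = F⁻¹ *ᵥ (D *ᵥ (F *ᵥ z)) := by
    intro z
    rw [Matrix.mulVec_mulVec, Matrix.mulVec_mulVec]
  rw [hc, hc, hc, hF, hD, Matrix.mulVec_add, hinv, hinv, hid, hid]

theorem stmPow : StmPow := by
  intro ι _ _ c w F hw hD hF hu
  have hfin := fin_char c w hw hD
  have hinj : Function.Injective F.mulVecLin := by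
    intro x y hxy
    have h1 : F⁻¹ *ᵥ (F *ᵥ x) = F⁻¹ *ᵥ (F *ᵥ y) := congrArg (fun z => F⁻¹ *ᵥ z) hxy
    rwa [Matrix.mulVec_mulVec, Matrix.mulVec_mulVec, Matrix.nonsing_inv_mul F hu,
      Matrix.one_mulVec, Matrix.one_mulVec] at h1
  have hmap : ∀ U : Submodule ℚ (ι → ℚ), CharSub c U → CharSub c (U.map F.mulVecLin) := by
    rintro U hU D hDer x ⟨y, hy, rfl⟩
    refine ⟨(F⁻¹ * D * F) *ᵥ y, hU _ (conj_der c F hF hu D hDer) y hy, ?_⟩
    rw [Matrix.mulVecLin_apply, Matrix.mulVecLin_apply, Matrix.mulVec_mulVec, Matrix.mulVec_mulVec]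
    congr 1
    rw [Matrix.mul_assoc, ← Matrix.mul_assoc F, Matrix.mul_nonsing_inv F hu, Matrix.one_mul]
  let π : {U : Submodule ℚ (ι → ℚ) // CharSub c U} → {U : Submodule ℚ (ι → ℚ) // CharSub c U} :=
    fun U => ⟨U.1.map F.mulVecLin, hmap U.1 U.2⟩
  have hπ : Function.Injective π := by
    intro U U' h
    exact Subtype.ext (Submodule.map_injective_of_injective hinj (congrArg Subtype.val h))
  let e : Equiv.Perm {U : Submodule ℚ (ι → ℚ) // CharSub c U} :=
    Equiv.ofBijective π (Finite.injective_iff_bijective.1 hπ)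
  have hpow : ∀ (k : ℕ) (U : {U : Submodule ℚ (ι → ℚ) // CharSub c U}),
      ((e ^ k) U).1 = U.1.map (F ^ k).mulVecLin := by
    intro k
    induction k with
    | zero =>
      intro U
      rw [pow_zero, pow_zero, Equiv.Perm.one_apply, Matrix.mulVecLin_one, Submodule.map_id]
    | succ k ih =>
      intro U
      rw [pow_succ', Equiv.Perm.mul_apply, pow_succ', Matrix.mulVecLin_mul, Submodule.map_comp,
        ← ih U]
      rfl
  refine ⟨orderOf e, orderOf_pos e, fun U hU x hx => ?_⟩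
  have h1 := hpow (orderOf e) ⟨U, hU⟩
  rw [pow_orderOf_eq_one, Equiv.Perm.one_apply] at h1
  have h2 : (F ^ orderOf e) *ᵥ x ∈ U.map (F ^ orderOf e).mulVecLin := ⟨x, hx, rfl⟩
  rw [← h1] at h2
  exact h2

end Pool.Agent.N519.AO
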